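import Pool.Agent.W_448s8f_h94.DgA

/-!
No join of two fold ends, `m` odd, `m ≥ 9`, window `m` (MP_448cb3_co, S8, small `m`): the
elements of level `2 m + 1`.
-/

namespace Pool.Agent.GaussPoset.Fi

set_option linter.unusedSectionVars false

open Polynomial Finset

universe u

variable {P : Type u} [Fintype P] [PartialOrder P] [DecidableEq P] {r m K : ℕ}
  {N : Tops P → Finset P} {b : Tops P → ℕ} {θ : Tops P → P → ℕ}

/-- the cost of a fold end -/
lemma fold_vs (m : ℕ) : vsQ m m 2 (fun d => 1 + pF m d) = NF m 2 := by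
  unfold vsQ NF
  rw [show 2 * m - m + 1 = m + 1 by omega]
  refine Finset.sum_congr rfl fun u hu => ?_
  rw [mem_range] at hu
  congr 1
  unfold pF nF
  show 1 + ((2 * m - (2 * m - (m + u))) / 2 - (m - (2 * m - (m + u)))) = (m + u) / 2 + 1 - u
  omega

/-- the hypotheses -/
structure D1H (m : ℕ) (N : Tops P → Finset P) (θ : Tops P → P → ℕ) : Prop where
  odd : m % 2 = 1
  nine : 9 ≤ m
  hF : ∀ z x, lev z = 2 * m + 1 → z ∈ r2 (2 * m) N → Fd m x → z ⋖ x →
    ∃ x', Fd m x' ∧ topOf x ≠ topOf x' ∧ z ⋖ x'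
  hQ : ∀ z x, lev z = 2 * m + 1 → He m m N θ x → ¬ z ⋖ x
  S7 : S7F P m

variable {z x x' : P}

/-- the elements of level `2 m + 1` of `R3` -/
inductive L1 (m : ℕ) (N : Tops P → Finset P) (b : Tops P → ℕ) (θ : Tops P → P → ℕ) (z : P) : Prop
  | tw (h : z ∈ twY (2 * m) N) (hs : StT m N b θ (topOf z))
  | ff (x x' : P) (hx : Fd m x) (hx' : Fd m x') (ht : topOf x ≠ topOf x')
      (hzx : z ⋖ x) (hzx' : z ⋖ x')
  | full (h : ∀ x, z ⋖ x → Full m m N θ x)

lemma D1H.l1 (D : D1H m N θ) (W : WC r m m K N b θ) (hz : z ∈ R3 m N b θ)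
    (hl : lev z = 2 * m + 1) : L1 m N b θ z := by
  have H := W.gt.H
  have hm := D.nine
  rw [mem_sdiff] at hz
  by_cases hY : z ∈ twY (2 * m) N
  · refine L1.tw hY ?_
    by_contra hs
    exact hz.2 (mem_twR.mpr ⟨hY, hs⟩)
  · have hz2 : z ∈ r2 (2 * m) N := mem_sdiff.mpr ⟨hz.1, hY⟩
    rcases W.class D.S7 hz2 hl with ⟨x, hx, hp⟩ | ⟨x, hx, hp⟩ | ⟨x, x', hx, h1, ht, hzx, hzx'⟩ |
      ⟨x, x', hx, h1, ht, hne, hzx, hzx'⟩ | h
    · exfalso
      obtain ⟨x', -, ht, hzx'⟩ := D.hF z x hl hz2 hx hp.1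
      rw [hp.2 x' hzx'] at ht
      exact ht rfl
    · exact (D.hQ z x hl hx hp.1).elim
    · obtain ⟨y, hy, hty, hzy⟩ := D.hF z x hl hz2 hx hzx
      have hne : x ≠ x' := fun h => ht (by rw [h])
      rcases uc_pair H hzx hzx' hne hzy with h | h
      · rw [h] at hty
        exact absurd rfl hty
      · rw [h] at hy
        exact L1.ff x x' hx hy ht hzx hzx'
    · exfalso
      obtain ⟨y, hy, hty, hzy⟩ := D.hF z x hl hz2 hx hzx
      rcases uc_pair H hzx hzx' hne hzy with h | h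
      · rw [h] at hty
        exact hty rfl
      · rw [h, ht] at hty
        exact hty rfl
    · exact L1.full h

/-- the fold ends in the chosen chart -/
lemma D1H.fold (D : D1H m N θ) (W : WC r m m K N b θ) (hx : Fd m x) :
    ∃ Nc co, InS2 m N b θ x Nc co ∧ co x = (m, m) := by
  have hm := D.nine
  have hodd := D.odd
  have hl := hx.1
  have hth := W.fold_th hx
  have h5 := W.fold_prof hx 1 (by omega)
  have h6 : pF m 1 = 0 := by
    unfold pF
    omega
  rw [h6] at h5
  rcases W.k2 (W.wi.low hl.le) with ⟨h, -⟩ | ⟨Nc, co, hs, h⟩ | ⟨Nc, co, hs, h⟩ | ⟨-, h⟩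
  · have := h.th
    omega
  · refine ⟨Nc, co, h, ?_⟩
    have h2 := h.ins.stair.chart.lev x h.ins.mem
    have h3 : (co x).1 ≤ (co x).2 := h.ins.stair.chart.mem x h.ins.mem
    have h7 := h.ins.fst
    rw [nab_chart h.ins.stair.chart h.ins.mem] at h5
    have h4 := card_cellsAt_shift (l := 2 * m - 1) (p := co x) h3 (by omega)
    exact Prod.ext (by simp only; omega) (by simp only; omega)
  · exfalso
    have := rect_two h.rect.chart h.mem h.fst h.snd (k := 2 * m - 1) (by omega) (by omega)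
    omega
  · have := (h hl).th
    omega

lemma WC.fold_th1 (W : WC r m m K N b θ) (hodd : m % 2 = 1) (hx : Fd m x) :
    θ (topOf x) x = 1 := by
  have h1 := W.fold_th hx
  omega

lemma WC.fold_ct (W : WC r m m K N b θ) (hx : Fd m x) : ct m 2 x = NF m 2 := by
  rw [ct_midI (m := m) (q := fun d => 1 + pF m d) (by omega) hx.1
    (fun d hd => W.fold_prof hx d (by omega)), fold_vs]

/-- the covers of level `2 m` -/
lemma D1H.cov (D : D1H m N θ) (W : WC r m m K N b θ) (hz : z ∈ R3 m N b θ)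
    (hl : lev z = 2 * m + 1) (hzx : z ⋖ x) : (Full m m N θ x ∧
      thP m N b θ (topOf x) x = lev x - m) ∨ ∃ Nc co, InS2 m N b θ x Nc co := by
  have H := W.gt.H
  have W' := W.wi
  have HN := W'.natSys
  have hm := D.nine
  have hlx : lev x = 2 * m := by
    have := (H.covBy_iff.mp hzx).2
    omega
  rcases W.k2 (W'.low hlx.le) with ⟨h, h'⟩ | ⟨Nc, co, hs, h⟩ | ⟨Nc, co, hs, h⟩ | ⟨-, h⟩
  · exact Or.inl ⟨h, h'⟩
  · exact Or.inr ⟨Nc, co, h⟩
  · exfalso
    rcases D.l1 W hz hl with ⟨hY, hs'⟩ | ⟨x1, x2, hx1, hx2, ht, hzx1, hzx2⟩ | h1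
    · have h1 := twT_spec (mem_twY.mp hY).2.2
      have h2 : twT N z ⋖ x := (cov_of_up h1.2).mpr hzx
      have h3 := HN.cp _ _ h2.le h1.1
      have h4 := W'.twSys.cp z hY
      rw [← h3, h4] at hs
      exact hs hs'
    · have hne : x1 ≠ x2 := fun h => ht (by rw [h])
      have hfold : Fd m x := by
        rcases uc_pair H hzx1 hzx2 hne hzx with h | h
        · rw [h]; exact hx1
        · rw [h]; exact hx2
      obtain ⟨Nc', co', h', -⟩ := D.fold W hfold
      exact hs ⟨_, h'.sc⟩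
    · have h2 := (h1 x hzx).th
      have h3 := h.th
      have h4 := h.fst
      have h5 := h.snd
      have h6 := h.rect.chart.lev x h.mem
      omega
  · exact (D.hQ z x hl (h hlx) hzx).elim

/-- two elements above on the levels `m + 1, ..., 2 m` -/
lemma D1H.two (D : D1H m N θ) (W : WC r m m K N b θ) (hz : z ∈ R3 m N b θ) {k : ℕ} (hk : m < k)
    (hk2 : k ≤ 2 * m) : 2 ≤ nab k z := by
  have H := W.gt.H
  have W' := W.wi
  have HN := W'.natSys
  have hm := D.nine
  have hzU := (mem_sdiff.mp hz).1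
  have hlz := W'.lt_lev hzU
  obtain ⟨w, hzw, hlw⟩ := exists_above' (x := z) (j := 2 * m + 1) (by omega)
  have hmono := nab_mono (l := k) hzw
  have htw : ∀ {y : P}, y ∈ twY (2 * m) N → y = w → 2 ≤ nab k (twT N y) → 2 ≤ nab k z := by
    intro y hy hyw h
    subst hyw
    have h1 := twT_spec (mem_twY.mp hy).2.2
    have h2 := W'.twSys.lev hy
    have h3 := nab_le_of_up h1.2 (k := k) (by omega)
    omega
  by_cases hwR : w ∈ R3 m N b θ
  · rcases D.l1 W hwR hlw with ⟨hY, hs⟩ | ⟨x1, x2, hx1, hx2, ht, hzx1, hzx2⟩ | h1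
    · obtain ⟨Nc, co, h⟩ := W.twS_stair hY hs
      refine htw hY rfl ?_
      have h2 := W'.twSys.lev hY
      exact stair_two h.ins.stair.chart h.ins.mem h.ins.fst (by omega) hk hk2
    · have h2 := W'.nab_joinI hlw hzx1 hzx2 ht hk2
      have h3 := hx1.1
      have h4 := hx2.1
      have h5 := one_le_nab (z := x1) (l := k) (by omega)
      have h6 := one_le_nab (z := x2) (l := k) (by omega)
      omega
    · have hne : w < (topOf w : P) := lt_of_le_of_ne (le_topOf w) (by
        intro h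
        have := (topOf w).2
        rw [← h] at this
        omega)
      obtain ⟨x, hwx, -⟩ := Hul.exists_cov hne
      have h2 := (H.covBy_iff.mp hwx).2
      have h3 := (h1 x hwx).two w (mem_sdiff.mp hwR).1 hwx.le k (by omega) (by omega)
      omega
  · by_cases hwU : w ∈ unnat N
    · have hY : w ∈ twR m N b θ := by
        by_contra hcon
        exact hwR (mem_sdiff.mpr ⟨hwU, hcon⟩)
      obtain ⟨Nc, co, h⟩ := W.twR_rect hY
      have h2 := W'.twSys.lev (mem_twR.mp hY).1
      refine htw (mem_twR.mp hY).1 rfl ?_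
      exact rect_two h.rect.chart h.mem h.fst h.snd (by omega) (by omega)
    · rcases W.k2 hwU with ⟨h, -⟩ | ⟨Nc, co, hs, h⟩ | ⟨Nc, co, hs, h⟩ | ⟨h, -⟩
      · exact h.two z hzU hzw k (by omega) (by omega)
      · have := stair_two h.ins.stair.chart h.ins.mem h.ins.fst hlw hk hk2
        omega
      · have := rect_two h.rect.chart h.mem h.fst h.snd (k := k) (by omega) (by omega)
        omega
      · omega

end Pool.Agent.GaussPoset.Fi
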